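import Pool.Agent.H5.BHG.Stmts2

/-!
# Board bhg, row WTP: the union bound for random digraphs
-/

set_option autoImplicit false

namespace Pool.BHG

theorem wtp_all (n : ℕ) (p : ℝ) :
    ∑ c : Fin n → Bool, ∏ i, (if c i = true then p else 1 - p) = 1 := by
  have h := Finset.prod_univ_sum (fun _ : Fin n => (Finset.univ : Finset Bool))
    (fun (_ : Fin n) (x : Bool) => if x = true then p else 1 - p)
  rw [Fintype.piFinset_univ] at h
  rw [← h]
  simp

theorem wtp_both (n : ℕ) (p : ℝ) (v w : Fin n) (hvw : v ≠ w) :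
    ∑ c : Fin n → Bool, (if c v = true ∧ c w = true then
      ∏ i, (if c i = true then p else 1 - p) else 0) = p ^ 2 := by
  have h := Finset.prod_univ_sum (fun _ : Fin n => (Finset.univ : Finset Bool))
    (fun (i : Fin n) (x : Bool) => if i = v ∨ i = w then (if x = true then p else 0) else
      (if x = true then p else 1 - p))
  rw [Fintype.piFinset_univ] at h
  have h2 : ∀ c : Fin n → Bool, (if c v = true ∧ c w = true then
      ∏ i, (if c i = true then p else 1 - p) else 0) =
      ∏ i, (if i = v ∨ i = w then (if c i = true then p else 0) else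
      (if c i = true then p else 1 - p)) := by
    intro c
    by_cases hc : c v = true ∧ c w = true
    · rw [if_pos hc]
      apply Finset.prod_congr rfl
      intro i _
      by_cases hi : i = v ∨ i = w
      · rw [if_pos hi]
        have hci : c i = true := by
          rcases hi with hi | hi
          · rw [hi]; exact hc.1
          · rw [hi]; exact hc.2
        rw [if_pos hci, if_pos hci]
      · rw [if_neg hi]
    · rw [if_neg hc]
      symm
      by_cases hv : c v = true
      · have hw : ¬ c w = true := fun hw => hc ⟨hv, hw⟩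
        apply Finset.prod_eq_zero (Finset.mem_univ w)
        rw [if_pos (Or.inr rfl), if_neg hw]
      · apply Finset.prod_eq_zero (Finset.mem_univ v)
        rw [if_pos (Or.inl rfl), if_neg hv]
  rw [Finset.sum_congr rfl (fun c _ => h2 c), ← h]
  have h3 : ∀ i : Fin n, (∑ x : Bool, if i = v ∨ i = w then (if x = true then p else 0) else
      (if x = true then p else 1 - p)) = (if i = v then p else 1) * (if i = w then p else 1) := by
    intro i
    by_cases hi : i = v
    · have hw : i ≠ w := fun h => hvw (hi.symm.trans h)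
      simp [hi, hvw]
    · by_cases hw : i = w
      · simp [hw, hvw.symm]
      · simp [hi, hw]
  rw [Finset.prod_congr rfl (fun i _ => h3 i), Finset.prod_mul_distrib]
  rw [Finset.prod_ite_eq' Finset.univ v (fun _ => p), Finset.prod_ite_eq' Finset.univ w (fun _ => p)]
  simp
  ring

theorem wtp_col (n : ℕ) (p : ℝ) (v w : Fin n) (hvw : v ≠ w) :
    ∑ c : Fin n → Bool, (if c v = true ∧ c w = true then 0 else
      ∏ i, (if c i = true then p else 1 - p)) = 1 - p ^ 2 := by
  have h1 := wtp_all n p
  have h2 := wtp_both n p v w hvw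
  have h3 : ∀ c : Fin n → Bool, (if c v = true ∧ c w = true then 0 else
      ∏ i, (if c i = true then p else 1 - p)) = ∏ i, (if c i = true then p else 1 - p) -
      (if c v = true ∧ c w = true then ∏ i, (if c i = true then p else 1 - p) else 0) := by
    intro c
    by_cases hc : c v = true ∧ c w = true
    · rw [if_pos hc, if_pos hc, sub_self]
    · rw [if_neg hc, if_neg hc, sub_zero]
  rw [Finset.sum_congr rfl (fun c _ => h3 c), Finset.sum_sub_distrib, h1, h2]

open Classical in
theorem wtp_pair (n : ℕ) (p : ℝ) (v w : Fin n) (hvw : v ≠ w) :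
    ∑ E : Fin n → Fin n → Bool, (if ∀ u, ¬ (E v u = true ∧ E w u = true) then wt p E else 0) =
      (1 - p ^ 2) ^ n := by
  have h0 : ∑ E : Fin n → Fin n → Bool,
      (if ∀ u, ¬ (E v u = true ∧ E w u = true) then wt p E else 0) =
      ∑ F : Fin n → Fin n → Bool, ∏ u, (if F u v = true ∧ F u w = true then 0 else
        ∏ i, (if F u i = true then p else 1 - p)) := by
    apply Fintype.sum_equiv (Equiv.piComm (fun (_ : Fin n) (_ : Fin n) => Bool))
    intro E
    have e : ∀ a b, (Equiv.piComm (fun (_ : Fin n) (_ : Fin n) => Bool)) E a b = E b a :=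
      fun a b => rfl
    simp only [e]
    by_cases hE : ∀ u, ¬ (E v u = true ∧ E w u = true)
    · rw [if_pos hE]
      unfold wt
      rw [Finset.prod_comm]
      apply Finset.prod_congr rfl
      intro u _
      rw [if_neg (hE u)]
    · rw [if_neg hE]
      obtain ⟨u, hu⟩ := not_forall.1 hE
      have hu' := not_not.1 hu
      symm
      apply Finset.prod_eq_zero (Finset.mem_univ u)
      rw [if_pos hu']
  rw [h0]
  have h := Finset.prod_univ_sum (fun _ : Fin n => (Finset.univ : Finset (Fin n → Bool)))
    (fun (_ : Fin n) (c : Fin n → Bool) => if c v = true ∧ c w = true then 0 else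
        ∏ i, (if c i = true then p else 1 - p))
  rw [Fintype.piFinset_univ] at h
  rw [← h]
  rw [Finset.prod_congr rfl (fun i _ => wtp_col n p v w hvw)]
  simp

theorem wtp_nonneg {n : ℕ} {p : ℝ} (h0 : 0 ≤ p) (h1 : p ≤ 1) (E : Fin n → Fin n → Bool) :
    0 ≤ wt p E := by
  unfold wt
  apply Finset.prod_nonneg
  intro v _
  apply Finset.prod_nonneg
  intro w _
  by_cases h : E v w = true
  · rw [if_pos h]; exact h0
  · rw [if_neg h]; linarith

open Classical in
theorem wtp_thm : WTPStmt := by
  intro n p h0 h1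
  have hF0 : ∀ (E : Fin n → Fin n → Bool) (v w : Fin n),
      0 ≤ (if v ≠ w ∧ ∀ u, ¬ (E v u = true ∧ E w u = true) then wt p E else 0) := by
    intro E v w
    by_cases h : v ≠ w ∧ ∀ u, ¬ (E v u = true ∧ E w u = true)
    · rw [if_pos h]; exact wtp_nonneg h0 h1 E
    · rw [if_neg h]
  have hA : ∑ E ∈ Finset.univ.filter (fun E : Fin n → Fin n → Bool => ¬ Cs E), wt p E ≤
      ∑ E : Fin n → Fin n → Bool, ∑ v : Fin n, ∑ w : Fin n,
        (if v ≠ w ∧ ∀ u, ¬ (E v u = true ∧ E w u = true) then wt p E else 0) := by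
    have hB : ∑ E ∈ Finset.univ.filter (fun E : Fin n → Fin n → Bool => ¬ Cs E), wt p E ≤
      ∑ E ∈ Finset.univ.filter (fun E : Fin n → Fin n → Bool => ¬ Cs E),
        ∑ v : Fin n, ∑ w : Fin n,
        (if v ≠ w ∧ ∀ u, ¬ (E v u = true ∧ E w u = true) then wt p E else 0) := by
      apply Finset.sum_le_sum
      intro E hE
      have hE' : ¬ Cs E := (Finset.mem_filter.1 hE).2
      unfold Cs at hE'
      push Not at hE'
      obtain ⟨v, w, hvw, hu⟩ := hE'
      have hc : v ≠ w ∧ ∀ u, ¬ (E v u = true ∧ E w u = true) :=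
        ⟨hvw, fun u hh => hu u hh.1 hh.2⟩
      have s1 : (if v ≠ w ∧ ∀ u, ¬ (E v u = true ∧ E w u = true) then wt p E else 0) ≤
          ∑ w : Fin n, (if v ≠ w ∧ ∀ u, ¬ (E v u = true ∧ E w u = true) then wt p E else 0) :=
        Finset.single_le_sum (f := fun w : Fin n =>
          (if v ≠ w ∧ ∀ u, ¬ (E v u = true ∧ E w u = true) then wt p E else 0))
          (fun w _ => hF0 E v w) (Finset.mem_univ w)
      have s2 : ∑ w : Fin n, (if v ≠ w ∧ ∀ u, ¬ (E v u = true ∧ E w u = true) then wt p E else 0) ≤
          ∑ v : Fin n, ∑ w : Fin n,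
            (if v ≠ w ∧ ∀ u, ¬ (E v u = true ∧ E w u = true) then wt p E else 0) :=
        Finset.single_le_sum (f := fun v : Fin n => ∑ w : Fin n,
          (if v ≠ w ∧ ∀ u, ¬ (E v u = true ∧ E w u = true) then wt p E else 0))
          (fun v _ => Finset.sum_nonneg (fun w _ => hF0 E v w)) (Finset.mem_univ v)
      rw [if_pos hc] at s1
      exact s1.trans s2
    refine hB.trans ?_
    apply Finset.sum_le_sum_of_subset_of_nonneg (Finset.filter_subset _ _)
    intro E _ _
    exact Finset.sum_nonneg (fun v _ => Finset.sum_nonneg (fun w _ => hF0 E v w))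
  refine hA.trans ?_
  rw [Finset.sum_comm]
  have hq : 0 ≤ (1 - p ^ 2) ^ n := by
    apply pow_nonneg
    have : p ^ 2 ≤ 1 := pow_le_one₀ h0 h1
    linarith
  have hC : ∀ v : Fin n, ∑ E : Fin n → Fin n → Bool, ∑ w : Fin n,
      (if v ≠ w ∧ ∀ u, ¬ (E v u = true ∧ E w u = true) then wt p E else 0) ≤
      ∑ _w : Fin n, (1 - p ^ 2) ^ n := by
    intro v
    rw [Finset.sum_comm]
    apply Finset.sum_le_sum
    intro w _
    by_cases hvw : v ≠ w
    · have := wtp_pair n p v w hvw
      rw [← this]
      apply le_of_eq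
      apply Finset.sum_congr rfl
      intro E _
      simp [hvw]
    · have hz : ∀ E : Fin n → Fin n → Bool,
          (if v ≠ w ∧ ∀ u, ¬ (E v u = true ∧ E w u = true) then wt p E else 0) = 0 := by
        intro E
        rw [if_neg (fun h => hvw h.1)]
      rw [Finset.sum_congr rfl (fun E _ => hz E), Finset.sum_const_zero]
      exact hq
  refine (Finset.sum_le_sum (fun v _ => hC v)).trans ?_
  simp only [Finset.sum_const, Finset.card_univ, Fintype.card_fin, nsmul_eq_mul]
  apply le_of_eq
  ring

end Pool.BHG
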